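import Mathlib

namespace Pool.Agent.Lib.MP_11d5c7_lc

open Set Topology

/-- A continuous map into Cantor space whose values are independent over the field with two
elements. -/
theorem exists_indep (J : Type) [Countable J] :
    ∃ ψ : (J → ZMod 2) → (ℕ → ZMod 2), Continuous ψ ∧
      ∀ (w : J → ZMod 2) (l : List (J → ZMod 2)), ψ w = (l.map ψ).sum → w ∈ l := by
  classical
  obtain ⟨e, he⟩ := exists_surjective_nat (List (J × ZMod 2))
  refine ⟨fun z m => ((e m).map (fun p => 1 + z p.1 + p.2)).prod, ?_, ?_⟩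
  · refine continuous_pi fun m => continuous_list_prod _ fun p _ => ?_
    exact (continuous_const.add (continuous_apply p.1)).add continuous_const
  · intro w l h
    by_contra hw
    have hex : ∀ z ∈ l, ∃ j, z j ≠ w j := by
      intro z hz
      by_contra hc
      push Not at hc
      exact hw ((funext hc : z = w) ▸ hz)
    choose j hj using fun z : {z // z ∈ l} => hex z.1 z.2
    obtain ⟨m, hm⟩ := he (l.attach.map fun z => (j z, w (j z)))
    have h1 := congrFun h m
    have hL : ((e m).map (fun p => 1 + w p.1 + p.2)).prod = 1 := by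
      refine List.prod_eq_one fun x hx => ?_
      rw [hm] at hx
      simp only [List.map_map, List.mem_map, Function.comp] at hx
      obtain ⟨z, -, rfl⟩ := hx
      generalize w (j z) = a
      revert a
      decide
    have hR : ∀ z ∈ l, ((e m).map (fun p => 1 + z p.1 + p.2)).prod = 0 := by
      intro z hz
      refine List.prod_eq_zero ?_
      rw [hm]
      simp only [List.map_map, List.mem_map, Function.comp]
      refine ⟨⟨z, hz⟩, List.mem_attach _ _, ?_⟩
      have h2 : z (j ⟨z, hz⟩) ≠ w (j ⟨z, hz⟩) := hj ⟨z, hz⟩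
      have h3 : ∀ a b : ZMod 2, b ≠ a → 1 + b + a = 0 := by decide
      exact h3 _ _ h2
    have hS : ∀ l' : List (J → ZMod 2), (∀ z ∈ l', z ∈ l) →
        ((l'.map fun z m => ((e m).map (fun p => 1 + z p.1 + p.2)).prod).sum : ℕ → ZMod 2) m
          = 0 := by
      intro l'
      induction l' with
      | nil => intro _; rfl
      | cons a t ih =>
        intro hl
        rw [List.map_cons, List.sum_cons, Pi.add_apply, ih fun z hz => hl z (List.mem_cons_of_mem _ hz),
          hR a (hl a List.mem_cons_self), add_zero]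
    rw [hS l fun _ h => h] at h1
    have h3 : (1 : ZMod 2) = 0 := hL.symm.trans h1
    exact absurd h3 (by decide)

/-- The same with a parameter space made of a flag, two points and a free parameter. -/
theorem exists_indep4 (I : Type) [Countable I] :
    ∃ ψ : ZMod 2 × (I → ZMod 2) × (I → ZMod 2) × (ℕ → ZMod 2) → (ℕ → ZMod 2),
      Continuous ψ ∧ ∀ w l, ψ w = (List.map ψ l).sum → w ∈ l := by
  classical
  obtain ⟨ψ, hc, hi⟩ := exists_indep (Unit ⊕ I ⊕ I ⊕ ℕ)
  let code : ZMod 2 × (I → ZMod 2) × (I → ZMod 2) × (ℕ → ZMod 2) → (Unit ⊕ I ⊕ I ⊕ ℕ → ZMod 2) :=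
    fun w => Sum.elim (fun _ => w.1) (Sum.elim w.2.1 (Sum.elim w.2.2.1 w.2.2.2))
  have hinj : Function.Injective code := by
    rintro ⟨n, z, y, t⟩ ⟨n', z', y', t'⟩ h
    have h1 : n = n' := congrFun h (Sum.inl ())
    have h2 : z = z' := funext fun i => congrFun h (Sum.inr (Sum.inl i))
    have h3 : y = y' := funext fun i => congrFun h (Sum.inr (Sum.inr (Sum.inl i)))
    have h4 : t = t' := funext fun i => congrFun h (Sum.inr (Sum.inr (Sum.inr i)))
    rw [h1, h2, h3, h4]
  have hcc : Continuous code := by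
    refine continuous_pi ?_
    rintro (i | i | i | i)
    · show Continuous fun w : ZMod 2 × (I → ZMod 2) × (I → ZMod 2) × (ℕ → ZMod 2) => w.1
      fun_prop
    · show Continuous fun w : ZMod 2 × (I → ZMod 2) × (I → ZMod 2) × (ℕ → ZMod 2) => w.2.1 i
      fun_prop
    · show Continuous fun w : ZMod 2 × (I → ZMod 2) × (I → ZMod 2) × (ℕ → ZMod 2) => w.2.2.1 i
      fun_prop
    · show Continuous fun w : ZMod 2 × (I → ZMod 2) × (I → ZMod 2) × (ℕ → ZMod 2) => w.2.2.2 i
      fun_prop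
  refine ⟨fun w => ψ (code w), hc.comp hcc, fun w l h => ?_⟩
  have h1 := hi (code w) (l.map code) (by rw [List.map_map]; exact h)
  obtain ⟨a, ha, hb⟩ := List.mem_map.1 h1
  exact hinj hb ▸ ha

/-- An uncountable square covered by countably many graphs and their inverses. -/
theorem exists_square (α : Type) [Uncountable α] :
    ∃ (X : Set α) (g : ℕ → α → α), ¬ X.Countable ∧
      ∀ a ∈ X, ∀ b ∈ X, ∃ n, g n a = b ∨ g n b = a := by
  classical
  obtain ⟨_, hwf⟩ := exists_wellFoundedLT α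
  have hen : ∀ b : α, ∃ s : ℕ → α, (Iic b).Countable → Iic b ⊆ range s := by
    intro b
    by_cases hb : (Iic b).Countable
    · obtain ⟨s, hs⟩ := hb.exists_eq_range ⟨b, le_refl b⟩
      exact ⟨s, fun _ => hs.le⟩
    · exact ⟨fun _ => b, fun h => absurd h hb⟩
  choose s hs using hen
  refine ⟨{b | (Iic b).Countable}, fun n b => s b n, fun hX => ?_, fun a ha b hb => ?_⟩
  · have hne : ({b : α | (Iic b).Countable}ᶜ).Nonempty := by
      by_contra h
      rw [Set.not_nonempty_iff_eq_empty, Set.compl_empty_iff] at h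
      rw [h] at hX
      exact Set.not_countable_univ hX
    obtain ⟨a, ha, hmin⟩ := wellFounded_lt.has_min _ hne
    apply ha
    have h1 : Iic a ⊆ insert a {b : α | (Iic b).Countable} := by
      intro c hc
      rcases eq_or_lt_of_le (show c ≤ a from hc) with h | h
      · exact Or.inl h
      · right
        by_contra hn
        exact hmin c hn h
    exact (hX.insert a).mono h1
  · rcases le_total a b with h | h
    · obtain ⟨n, hn⟩ := hs b hb h
      exact ⟨n, Or.inr hn⟩
    · obtain ⟨n, hn⟩ := hs a ha h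
      exact ⟨n, Or.inl hn⟩

theorem unc : Uncountable (ℕ → ZMod 2) := by
  rw [← Cardinal.aleph0_lt_mk_iff]
  simpa using Cardinal.aleph0_lt_continuum

/-- The covering graphs can be taken continuous. -/
theorem exists_square_cont :
    ∃ (X : Set (List ℕ × ℕ → ZMod 2)) (f : ℕ → (List ℕ × ℕ → ZMod 2) → (List ℕ × ℕ → ZMod 2)),
      (∀ n, Continuous (f n)) ∧ ¬ X.Countable ∧
      ∀ a ∈ X, ∀ b ∈ X, ∃ n, f n a = b ∨ f n b = a := by
  have := unc
  obtain ⟨X, g, hX, hg⟩ := exists_square (ℕ → ZMod 2)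
  let Φ : (ℕ → ZMod 2) → (List ℕ × ℕ → ZMod 2) :=
    fun a q => (q.1.foldl (fun c n => g n c) a) q.2
  have hinj : Function.Injective Φ := fun a b h => funext fun k => congrFun h ([], k)
  refine ⟨Φ '' X, fun n z q => z (n :: q.1, q.2), fun n => ?_, fun h => ?_, ?_⟩
  · exact continuous_pi fun q => continuous_apply _
  · exact hX (Set.countable_of_injective_of_countable_image hinj.injOn h)
  · rintro _ ⟨a, ha, rfl⟩ _ ⟨b, hb, rfl⟩
    obtain ⟨n, h | h⟩ := hg a ha b hb
    · exact ⟨n, Or.inl (by subst h; rfl)⟩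
    · exact ⟨n, Or.inr (by subst h; rfl)⟩

/-- Baire category on the square of a closed set. -/
theorem baire2 {G ι : Type} [TopologicalSpace G] [T2Space G] [CompactSpace G] [Countable ι]
    {P W : Set G} (hP : IsClosed P) (hW : IsOpen W) (hne : (W ∩ P).Nonempty)
    (F : ι → Set (G × G)) (hF : ∀ i, IsClosed (F i))
    (hcov : ∀ x ∈ P, ∀ y ∈ P, ∃ i, (x, y) ∈ F i) :
    ∃ (i : ι) (U V : Set G), IsOpen U ∧ IsOpen V ∧ U ⊆ W ∧ V ⊆ W ∧ (U ∩ P).Nonempty ∧
      (V ∩ P).Nonempty ∧ ∀ x ∈ U ∩ P, ∀ y ∈ V ∩ P, (x, y) ∈ F i := by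
  have : CompactSpace (P ×ˢ P : Set (G × G)) :=
    isCompact_iff_compactSpace.1 (hP.prod hP).isCompact
  have hd := dense_iUnion_interior_of_closed
    (f := fun i => (Subtype.val ⁻¹' F i : Set (P ×ˢ P : Set (G × G))))
    (fun i => (hF i).preimage continuous_subtype_val)
    (by
      refine Set.eq_univ_of_forall fun s => ?_
      obtain ⟨i, hi⟩ := hcov s.1.1 s.2.1 s.1.2 s.2.2
      exact Set.mem_iUnion.2 ⟨i, hi⟩)
  obtain ⟨w, hw⟩ := hne
  obtain ⟨s, hs1, hs2⟩ := hd.inter_open_nonempty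
    (Subtype.val ⁻¹' (W ×ˢ W)) ((hW.prod hW).preimage continuous_subtype_val)
    ⟨⟨(w, w), hw.2, hw.2⟩, hw.1, hw.1⟩
  obtain ⟨i, hi⟩ := Set.mem_iUnion.1 hs2
  obtain ⟨t, ht, hto, hst⟩ := mem_interior.1 hi
  obtain ⟨O, hO, rfl⟩ := isOpen_induced_iff.1 hto
  obtain ⟨U, V, hU, hV, h1, h2, hUV⟩ := isOpen_prod_iff.1 hO s.1.1 s.1.2 hst
  refine ⟨i, U ∩ W, V ∩ W, hU.inter hW, hV.inter hW, inter_subset_right, inter_subset_right,
    ⟨s.1.1, ⟨h1, hs1.1⟩, s.2.1⟩, ⟨s.1.2, ⟨h2, hs1.2⟩, s.2.2⟩, fun x hx y hy => ?_⟩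
  exact ht (a := ⟨(x, y), hx.2, hy.2⟩) (hUV ⟨hx.1.1, hy.1.1⟩)

end Pool.Agent.Lib.MP_11d5c7_lc
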