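import Pool.Agent.Lib.MP_11d5c7_lc.A

namespace Pool.Agent.Lib.MP_11d5c7_lc

open Set Topology

theorem two0 : (2 : ℕ → ZMod 2) = 0 := by
  funext m
  show (2 : ZMod 2) = 0
  decide

section
variable {K : Type} {φ : K → ℕ → ZMod 2}

theorem four (hi : ∀ w l, φ w = (List.map φ l).sum → w ∈ l) {a b c d : K} (hab : a ≠ b)
    (h : φ a + φ b = φ c + φ d) : (a = c ∧ b = d) ∨ (a = d ∧ b = c) := by
  have h1 := hi a [b, c, d] (by
    simp only [List.map_cons, List.map_nil, List.sum_cons, List.sum_nil]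
    linear_combination h - (φ b) * two0)
  have h2 := hi b [a, c, d] (by
    simp only [List.map_cons, List.map_nil, List.sum_cons, List.sum_nil]
    linear_combination h - (φ a) * two0)
  simp only [List.mem_cons, List.not_mem_nil, or_false] at h1 h2
  grind

theorem six (hi : ∀ w l, φ w = (List.map φ l).sum → w ∈ l) {a b a' b' c d : K} (hab : a ≠ b)
    (hab' : a' ≠ b') (h : φ a + φ b + φ a' + φ b' = φ c + φ d) :
    a = a' ∨ a = b' ∨ b = a' ∨ b = b' := by
  have h1 := hi a [b, a', b', c, d] (by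
    simp only [List.map_cons, List.map_nil, List.sum_cons, List.sum_nil]
    linear_combination h - (φ b + φ a' + φ b') * two0)
  have h2 := hi b [a, a', b', c, d] (by
    simp only [List.map_cons, List.map_nil, List.sum_cons, List.sum_nil]
    linear_combination h - (φ a + φ a' + φ b') * two0)
  have h3 := hi a' [a, b, b', c, d] (by
    simp only [List.map_cons, List.map_nil, List.sum_cons, List.sum_nil]
    linear_combination h - (φ a + φ b + φ b') * two0)
  simp only [List.mem_cons, List.not_mem_nil, or_false] at h1 h2 h3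
  grind

/-- No perfect set has all its sums on the edges of countably many continuous graphs. -/
theorem no_perfect [TopologicalSpace K] [CompactSpace K] (hc : Continuous φ)
    (hi : ∀ w l, φ w = (List.map φ l).sum → w ∈ l) (f : ℕ → K → K) (hf : ∀ n, Continuous (f n))
    {P : Set (ℕ → ZMod 2)} (hP : Perfect P) (hne : P.Nonempty)
    (h : ∀ x ∈ P, ∀ y ∈ P, x = y ∨ ∃ n z, x + y = φ z + φ (f n z)) : False := by
  have hinf : ∀ U : Set (ℕ → ZMod 2), IsOpen U → (U ∩ P).Nonempty → (U ∩ P).Infinite :=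
    fun U hU ⟨q, hq⟩ => Set.Infinite.of_accPt (hP.acc.open_inter hU q hq)
  have hedge : ∀ x ∈ P, ∀ y ∈ P, x ≠ y → ∃ a b, a ≠ b ∧ x + y = φ a + φ b := by
    intro x hx y hy hxy
    rcases h x hx y hy with h1 | ⟨n, z, h1⟩
    · exact absurd h1 hxy
    · refine ⟨z, f n z, fun h2 => hxy ?_, h1⟩
      rw [← h2] at h1
      linear_combination h1 + (φ z - y) * two0
  obtain ⟨p0, hp0, p1, hp1, h01⟩ :=
    (hinf univ isOpen_univ (by simpa using hne)).nontrivial
  replace hp0 := hp0.2
  replace hp1 := hp1.2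
  obtain ⟨a0, b0, hab0, h0⟩ := hedge p0 hp0 p1 hp1 h01
  let C : K → Set (ℕ → ZMod 2) := fun s => range fun z => p0 + (φ s + φ z)
  have hC : ∀ s, IsClosed (C s) := fun s =>
    (isCompact_range (continuous_const.add (continuous_const.add hc))).isClosed
  have hcov : ∀ q ∈ P, q ∈ C a0 ∨ q ∈ C b0 := by
    intro q hq
    by_cases hq0 : q = p0
    · left
      exact ⟨a0, by show _ = q; rw [hq0]; linear_combination (φ a0) * two0⟩
    by_cases hq1 : q = p1
    · left
      exact ⟨b0, by show _ = q; rw [hq1]; linear_combination (p0) * two0 - h0⟩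
    obtain ⟨a, b, hab, h1⟩ := hedge q hq p0 hp0 hq0
    obtain ⟨c, d, -, h2⟩ := hedge q hq p1 hp1 hq1
    rcases six hi hab0 hab (c := c) (d := d)
      (by linear_combination h2 - h0 - h1 + p0 * two0) with e | e | e | e
    · left
      exact ⟨b, by show _ = q; rw [e]; linear_combination p0 * two0 - h1⟩
    · left
      exact ⟨a, by show _ = q; rw [e]; linear_combination p0 * two0 - h1⟩
    · right
      exact ⟨b, by show _ = q; rw [e]; linear_combination p0 * two0 - h1⟩
    · right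
      exact ⟨a, by show _ = q; rw [e]; linear_combination p0 * two0 - h1⟩
  obtain ⟨W, s, hW, hWne, hWs⟩ : ∃ (W : Set (ℕ → ZMod 2)) (s : K), IsOpen W ∧ (W ∩ P).Nonempty ∧
      ∀ q ∈ W ∩ P, q ∈ C s := by
    by_cases hall : ∀ q ∈ P, q ∈ C a0
    · exact ⟨univ, a0, isOpen_univ, by simpa using hne, fun q hq => hall q hq.2⟩
    · push Not at hall
      obtain ⟨q, hq, hq'⟩ := hall
      exact ⟨(C a0)ᶜ, b0, (hC a0).isOpen_compl, ⟨q, hq', hq⟩,
        fun r hr => (hcov r hr.2).resolve_left hr.1⟩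
  let F : Option ℕ → Set ((ℕ → ZMod 2) × (ℕ → ZMod 2)) := fun o =>
    match o with
    | none => {p | p.1 = p.2}
    | some n => (fun p => p.1 + p.2) ⁻¹' range fun z => φ z + φ (f n z)
  have hF : ∀ o, IsClosed (F o) := by
    rintro (_ | n)
    · exact isClosed_eq continuous_fst continuous_snd
    · exact ((isCompact_range (hc.add (hc.comp (hf n)))).isClosed).preimage
        (continuous_fst.add continuous_snd)
  obtain ⟨o, U, V, hU, hV, hUW, hVW, hUne, hVne, hUV⟩ := baire2 hP.closed hW hWne F hF (by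
    intro x hx y hy
    rcases h x hx y hy with h1 | ⟨n, z, h1⟩
    · exact ⟨none, h1⟩
    · exact ⟨some n, z, h1.symm⟩)
  obtain ⟨x1, hx1, x2, hx2, h12⟩ := (hinf U hU hUne).nontrivial
  rcases o with _ | n
  · obtain ⟨y, hy⟩ := hVne
    exact h12 ((hUV x1 hx1 y hy).trans (hUV x2 hx2 y hy).symm)
  obtain ⟨k1, e1⟩ := hWs x1 ⟨hUW hx1.1, hx1.2⟩
  obtain ⟨k2, e2⟩ := hWs x2 ⟨hUW hx2.1, hx2.2⟩
  obtain ⟨y, hy, hyn⟩ := (hinf V hV hVne).exists_notMem_finite
    (Set.toFinite {x1, x2, p0 + (φ s + φ (f n k1)), p0 + (φ s + φ (f n k2))})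
  obtain ⟨k, e⟩ := hWs y ⟨hVW hy.1, hy.2⟩
  simp only [Set.mem_insert_iff, Set.mem_singleton_iff, not_or] at hyn
  have key : ∀ x ∈ U ∩ P, ∀ k', p0 + (φ s + φ k') = x → y ≠ x →
      y ≠ p0 + (φ s + φ (f n k')) → f n k = k' := by
    intro x hx k' e' hyx hyf
    obtain ⟨z, hz⟩ := hUV x hx y hy
    have e0 : p0 + (φ s + φ k) = y := e
    have hz0 : φ z + φ (f n z) = x + y := hz
    have hkk : k' ≠ k := fun h1 => hyx (by rw [← e0, ← e', h1])
    rcases four hi hkk (c := z) (d := f n z)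
      (by linear_combination e' + e0 - hz0 - (p0 + φ s) * two0) with ⟨u1, u2⟩ | ⟨u1, u2⟩
    · exact absurd (by rw [← e0, u2, u1]) hyf
    · rw [u1, u2]
  have t1 := key x1 hx1 k1 e1 hyn.1 hyn.2.2.1
  have t2 := key x2 hx2 k2 e2 hyn.2.1 hyn.2.2.2
  have e1' : p0 + (φ s + φ k1) = x1 := e1
  have e2' : p0 + (φ s + φ k2) = x2 := e2
  exact h12 (by rw [← e1', ← e2', ← t1, ← t2])

end

theorem encard_four {α : Type} (a b c d : α) : ({a, b, c, d} : Set α).encard ≤ 4 :=
  calc ({a, b, c, d} : Set α).encard ≤ ({b, c, d} : Set α).encard + 1 :=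
        Set.encard_insert_le _ _
    _ ≤ (({c, d} : Set α).encard + 1) + 1 := by gcongr; exact Set.encard_insert_le _ _
    _ ≤ ((({d} : Set α).encard + 1) + 1) + 1 := by gcongr; exact Set.encard_insert_le _ _
    _ = 4 := by rw [Set.encard_singleton]; norm_num

/-- The set exists outright, and it is compact. -/
theorem main : ∃ B : Set (ℕ → ZMod 2), IsCompact B ∧
    @MeasurableSet _ (borel (ℕ → ZMod 2)) B ∧
    (∃ H : Set (ℕ → ZMod 2), ¬ H.Countable ∧ ∀ x ∈ H, ∀ y ∈ H,
      ¬ (((fun b => b + x) '' B) ∩ ((fun b => b + y) '' B)).Countable) ∧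
    ∀ P : Set (ℕ → ZMod 2), Perfect P → P.Nonempty → ∃ x ∈ P, ∃ y ∈ P,
      (((fun b => b + x) '' B) ∩ ((fun b => b + y) '' B)).Countable ∧
      (((fun b => b + x) '' B) ∩ ((fun b => b + y) '' B)).encard ≤ 4 := by
  classical
  obtain ⟨X, f, hf, hX, hsq⟩ := exists_square_cont
  obtain ⟨ψ, hψ, hi⟩ := exists_indep4 (List ℕ × ℕ)
  let φ : (List ℕ × ℕ → ZMod 2) → ℕ → ZMod 2 := fun z => ψ (0, z, 0, 0)
  have hφc : Continuous φ := hψ.comp (by fun_prop)
  have hφi : ∀ w l, φ w = (List.map φ l).sum → w ∈ l := by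
    intro w l h
    have h1 := hi (0, w, 0, 0) (l.map fun z => (0, z, 0, 0)) (by rw [List.map_map]; exact h)
    obtain ⟨a, ha, hb⟩ := List.mem_map.1 h1
    have h2 : a = w := congrArg (fun q => q.2.1) hb
    exact h2 ▸ ha
  let Kc : Set ((List ℕ × ℕ → ZMod 2) × (List ℕ × ℕ → ZMod 2) × (ℕ → ZMod 2)) :=
    {k | ∀ n, k.2.2 n ≠ 0 → (∀ m < n, k.2.2 m = 0) → k.1 = f n k.2.1}
  have hKc : IsClosed Kc := by
    have e : Kc = ⋂ n, ({k | k.2.2 n = 0} ∪ (⋃ m ∈ Finset.range n, {k | k.2.2 m = 1}) ∪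
        {k | k.1 = f n k.2.1}) := by
      have h2 : ∀ a : ZMod 2, a = 1 ↔ ¬ a = 0 := by decide
      ext k
      simp only [Kc, Set.mem_ofPred_eq, Set.mem_iInter, Set.mem_union, Set.mem_iUnion,
        Finset.mem_range, h2, exists_prop]
      refine forall_congr' fun n => ?_
      grind
    rw [e]
    refine isClosed_iInter fun n => IsClosed.union (IsClosed.union ?_ ?_) ?_
    · exact isClosed_eq (by fun_prop) continuous_const
    · exact isClosed_biUnion_finset fun m _ => isClosed_eq (by fun_prop) continuous_const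
    · exact isClosed_eq continuous_fst ((hf n).comp (by fun_prop))
  let B : Set (ℕ → ZMod 2) :=
    (fun k => ψ (1, k) + φ k.1) '' Kc ∪ (fun k => ψ (1, k) + φ k.2.1) '' Kc
  have hB : IsCompact B := by
    have h1 : Continuous
        fun k : (List ℕ × ℕ → ZMod 2) × (List ℕ × ℕ → ZMod 2) × (ℕ → ZMod 2) => ψ (1, k) :=
      hψ.comp (by fun_prop)
    exact (hKc.isCompact.image (h1.add (hφc.comp continuous_fst))).union
      (hKc.isCompact.image (h1.add (hφc.comp (by fun_prop))))
  have hmem : ∀ b ∈ B, ∃ k ∈ Kc, ∃ u, (u = k.1 ∨ u = k.2.1) ∧ b = ψ (1, k) + φ u := by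
    rintro b (⟨k, hk, rfl⟩ | ⟨k, hk, rfl⟩)
    · exact ⟨k, hk, _, Or.inl rfl, rfl⟩
    · exact ⟨k, hk, _, Or.inr rfl, rfl⟩
  refine ⟨B, hB, ?_, ⟨φ '' X, fun h => hX ?_, ?_⟩, ?_⟩
  · let : MeasurableSpace (ℕ → ZMod 2) := borel _
    have : BorelSpace (ℕ → ZMod 2) := ⟨rfl⟩
    exact hB.isClosed.measurableSet
  · refine Set.countable_of_injective_of_countable_image (fun a _ b _ hab => ?_) h
    simpa using hφi a [b] (by simpa using hab)
  · have key : ∀ n z, ¬ (((fun b => b + φ z) '' B) ∩ ((fun b => b + φ (f n z)) '' B)).Countable := by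
      intro n z h
      have := unc
      let τ : (ℕ → ZMod 2) → ℕ → ZMod 2 :=
        fun s m => if m < n then 0 else if m = n then 1 else s (m - (n + 1))
      have hτ : Function.Injective τ := by
        intro s s' h1
        funext m
        have h2 := congrFun h1 (m + (n + 1))
        have h3 : ¬ m + (n + 1) < n := by omega
        have h4 : ¬ m + (n + 1) = n := by omega
        simpa [τ, h3, h4] using h2
      have hK : ∀ s, (f n z, z, τ s) ∈ Kc := by
        intro s m h1 h2
        have h3 : ¬ m < n := fun h3 => h1 (by simp [τ, h3])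
        have h4 : ¬ n < m := fun h4 => by
          have h5 := h2 n h4
          simp [τ] at h5
        have h5 : m = n := by omega
        rw [h5]
      have hinj : Function.Injective fun s : ℕ → ZMod 2 =>
          ψ (1, f n z, z, τ s) + φ (f n z) + φ z := by
        intro s s' h1
        have h2 : ψ (1, f n z, z, τ s) = ψ (1, f n z, z, τ s') :=
          add_right_cancel (add_right_cancel h1)
        apply hτ
        simpa using hi (1, f n z, z, τ s) [(1, f n z, z, τ s')] (by simpa using h2)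
      refine Set.not_countable_univ (Set.countable_of_injective_of_countable_image hinj.injOn
        (h.mono ?_))
      rintro _ ⟨s, -, rfl⟩
      refine ⟨⟨_, Or.inl ⟨_, hK s, rfl⟩, rfl⟩, ⟨_, Or.inr ⟨_, hK s, rfl⟩, ?_⟩⟩
      show ψ (1, f n z, z, τ s) + φ z + φ (f n z) = ψ (1, f n z, z, τ s) + φ (f n z) + φ z
      ring
    rintro _ ⟨a, ha, rfl⟩ _ ⟨b, hb, rfl⟩
    obtain ⟨n, h | h⟩ := hsq a ha b hb
    · rw [← h]
      exact key n a
    · rw [← h, Set.inter_comm]
      exact key n b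
  · intro P hP hne
    suffices h : ∃ x ∈ P, ∃ y ∈ P,
        (((fun b => b + x) '' B) ∩ ((fun b => b + y) '' B)).encard ≤ 4 by
      obtain ⟨x, hx, y, hy, h⟩ := h
      exact ⟨x, hx, y, hy, (Set.finite_of_encard_le_coe (k := 4) h).countable, h⟩
    by_contra hcon
    push Not at hcon
    refine no_perfect hφc hφi f hf hP hne fun x hx y hy => ?_
    by_contra hno
    push Not at hno
    obtain ⟨hxy, hno⟩ := hno
    have hrep : ∀ g ∈ ((fun b => b + x) '' B) ∩ ((fun b => b + y) '' B),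
        ∃ k u k' u', (u = k.1 ∨ u = k.2.1) ∧
          (k = k' → k.2.2 = 0 ∧ k.1 ≠ k.2.1 ∧ x + y = φ k.1 + φ k.2.1) ∧
          g = ψ (1, k) + φ u + x ∧ g = ψ (1, k') + φ u' + y := by
      rintro g ⟨⟨b, hb, e1⟩, ⟨b', hb', e2⟩⟩
      obtain ⟨k, hk, u, hu, rfl⟩ := hmem b hb
      obtain ⟨k', -, u', hu', rfl⟩ := hmem b' hb'
      refine ⟨k, u, k', u', hu, fun hh => ?_, e1.symm, e2.symm⟩
      subst hh
      have e3 : x + y = φ u + φ u' := by
        linear_combination e1 - e2 + (y - φ u) * two0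
      have e4 : x + y = φ k.1 + φ k.2.1 := by
        rcases hu with rfl | rfl <;> rcases hu' with rfl | rfl
        · exact absurd (by linear_combination e3 + (φ k.1 - y) * two0) hxy
        · exact e3
        · rw [e3, add_comm]
        · exact absurd (by linear_combination e3 + (φ k.2.1 - y) * two0) hxy
      refine ⟨?_, fun h5 => hxy ?_, e4⟩
      · by_contra h5
        have h6 : ∃ n, k.2.2 n ≠ 0 := Function.ne_iff.1 h5
        have h7 := hk (Nat.find h6) (Nat.find_spec h6)
          fun m hm => not_not.1 (Nat.find_min h6 hm)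
        exact hno (Nat.find h6) k.2.1 (by rw [e4, h7, add_comm])
      · rw [← h5] at e4
        linear_combination e4 + (φ k.1 - y) * two0
    have hlt := hcon x hx y hy
    rcases Set.eq_empty_or_nonempty
      (((fun b => b + x) '' B) ∩ ((fun b => b + y) '' B)) with h0 | ⟨g0, hg0⟩
    · rw [h0] at hlt
      simp at hlt
    obtain ⟨k0, u0, k1, u1, -, h01, a0, a1⟩ := hrep g0 hg0
    have h10 : (1 : ZMod 2) ≠ 0 := by decide
    have hsplit : ∀ k u k' u' l v l' v', ψ (1, k) + φ u + x = ψ (1, k') + φ u' + y →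
        ψ (1, l) + φ v + x = ψ (1, l') + φ v' + y → k ≠ k' → k = l ∨ k = l' := by
      intro k u k' u' l v l' v' e1 e2 hkk
      have h1 := hi (1, k) [(1, k'), (1, l), (1, l'), (0, u, 0, 0), (0, u', 0, 0), (0, v, 0, 0),
        (0, v', 0, 0)] (by
          simp only [List.map_cons, List.map_nil, List.sum_cons, List.sum_nil]
          change ψ (1, k) = ψ (1, k') + (ψ (1, l) + (ψ (1, l') + (φ u + (φ u' + (φ v +
            (φ v' + 0))))))
          linear_combination e1 - e2 - (φ u + ψ (1, l') + φ v') * two0)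
      simpa [h10, hkk] using h1
    obtain ⟨l0, l1, hl⟩ : ∃ l0 l1, ∀ k u k' u', ψ (1, k) + φ u + x = ψ (1, k') + φ u' + y →
        (k = k' → k.2.2 = 0 ∧ k.1 ≠ k.2.1 ∧ x + y = φ k.1 + φ k.2.1) → k = l0 ∨ k = l1 := by
      have a01 := a0.symm.trans a1
      by_cases hk : k0 = k1
      · obtain ⟨-, c2, c3⟩ := h01 hk
        refine ⟨(k0.1, k0.2.1, 0), (k0.2.1, k0.1, 0), fun k u k' u' e1 h1 => ?_⟩
        have hkk : k = k' := by
          by_contra hkk
          have t1 := hsplit k u k' u' k0 u0 k1 u1 e1 a01 hkk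
          have t2 := hsplit k' u k u' k0 u0 k1 u1
            (by linear_combination e1 + (ψ (1, k') - ψ (1, k)) * two0) a01 (Ne.symm hkk)
          rw [← hk, or_self] at t1 t2
          exact hkk (t1.trans t2.symm)
        obtain ⟨d1, d2, d3⟩ := h1 hkk
        rcases four hφi d2 (d3.symm.trans c3) with ⟨p1, p2⟩ | ⟨p1, p2⟩
        · exact Or.inl (Prod.ext p1 (Prod.ext p2 d1))
        · exact Or.inr (Prod.ext p1 (Prod.ext p2 d1))
      · refine ⟨k0, k1, fun k u k' u' e1 _ => ?_⟩
        by_cases hkk : k = k'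
        · have t1 := hsplit k0 u0 k1 u1 k u k' u' a01 e1 hk
          rw [← hkk, or_self] at t1
          exact Or.inl t1.symm
        · exact hsplit k u k' u' k0 u0 k1 u1 e1 a01 hkk
    have hsub : ((fun b => b + x) '' B) ∩ ((fun b => b + y) '' B) ⊆
        {ψ (1, l0) + φ l0.1 + x, ψ (1, l0) + φ l0.2.1 + x,
         ψ (1, l1) + φ l1.1 + x, ψ (1, l1) + φ l1.2.1 + x} := by
      intro g hg
      obtain ⟨k, u, k', u', hu, hkk, e1, e2⟩ := hrep g hg
      simp only [Set.mem_insert_iff, Set.mem_singleton_iff]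
      rcases hl k u k' u' (e1.symm.trans e2) hkk with rfl | rfl
      · rcases hu with rfl | rfl
        · exact Or.inl e1
        · exact Or.inr (Or.inl e1)
      · rcases hu with rfl | rfl
        · exact Or.inr (Or.inr (Or.inl e1))
        · exact Or.inr (Or.inr (Or.inr e1))
    exact absurd ((Set.encard_le_encard hsub).trans (encard_four _ _ _ _)) (not_le.2 hlt)

end Pool.Agent.Lib.MP_11d5c7_lc
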